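import Pool.Agent.Y256.LW.D3

/-!
Project LW, part DISC: the transfer from the half-plane to the disc.
-/

set_option autoImplicit false

open Set Filter Topology Complex Metric

noncomputable section

namespace Pool.Agent.Y256.LW

open LW242

/-- enumeration of the finite set of marked points on the real line -/
theorem enum {F : Set ℂ} {τ : ℂ} (hτ : ‖τ‖ = 1) (hF : F.Finite) (hne : F.Nonempty)
    (hFs : F ⊆ sphere 0 1) (hτF : τ ∉ F) : ∃ (n : ℕ) (x : ℕ → ℝ),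
    (∀ i j, i < j → j ≤ n → x i < x j) ∧ (∀ j ≤ n, K τ (x j) ∈ F) ∧
    ∀ σ ∈ F, ∃ j ≤ n, K τ (x j) = σ := by
  classical
  set X : Finset ℝ := hF.toFinset.image (fun σ => (K' τ σ).re) with hX
  have hback : ∀ σ ∈ F, K τ (((K' τ σ).re : ℝ) : ℂ) = σ := by
    intro σ hσ
    have h1 : ‖σ‖ = 1 := mem_sphere_zero_iff_norm.1 (hFs hσ)
    have h2 : σ ≠ τ := fun h => hτF (h ▸ hσ)
    rw [K'_real hτ h1 h2, K_K' (tau_ne hτ) h2]
  have hXne : X.Nonempty := by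
    obtain ⟨σ, hσ⟩ := hne
    exact ⟨_, Finset.mem_image_of_mem _ (hF.mem_toFinset.2 hσ)⟩
  have hcard : 0 < X.card := Finset.card_pos.2 hXne
  refine ⟨X.card - 1, fun j => if h : j < X.card then X.orderEmbOfFin rfl ⟨j, h⟩ else 0,
    fun i j hij hj => ?_, fun j hj => ?_, fun σ hσ => ?_⟩
  · have hj' : j < X.card := by omega
    have hi' : i < X.card := by omega
    simp only [hj', hi', dif_pos]
    exact (X.orderEmbOfFin rfl).strictMono hij
  · have hj' : j < X.card := by omega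
    simp only [hj', dif_pos]
    have h1 := Finset.orderEmbOfFin_mem X rfl ⟨j, hj'⟩
    obtain ⟨σ, hσ, h2⟩ := Finset.mem_image.1 h1
    have hσ' := hF.mem_toFinset.1 hσ
    rw [← h2, hback σ hσ']
    exact hσ'
  · have h1 : (K' τ σ).re ∈ X := Finset.mem_image_of_mem _ (hF.mem_toFinset.2 hσ)
    have h2 : (K' τ σ).re ∈ Set.range (X.orderEmbOfFin rfl) := by
      rw [Finset.range_orderEmbOfFin]
      exact h1
    obtain ⟨⟨j, hj⟩, h3⟩ := h2
    refine ⟨j, by omega, ?_⟩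
    simp only [hj, dif_pos]
    rw [h3, hback σ hσ]

/-- TARGET -/
theorem t (hSP : S_SP) (hJ : S_JWC) (hJF : S_JFIN) (hBD : S_JBD) : S_DISC := by
  intro hG F τ hF hne hFs hτs hτF φ hφ hid
  have hτ : ‖τ‖ = 1 := mem_sphere_zero_iff_norm.1 hτs
  have hτ0 := tau_ne hτ
  obtain ⟨n, x, hmono, hx1, hx2⟩ := enum hτ hF hne hFs hτF
  obtain ⟨-, hUD, hB, hDW⟩ : ¬ IsIdD φ ∧ UniD φ ∧ (∀ σ ∈ F, BRFP φ σ) ∧ IsDW φ τ := by
    rcases hφ with h | h
    · exact absurd h hid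
    · exact h
  have hPU := Phi_uni hτ hUD
  have hCls : Cls n x (Phi τ φ) :=
    ⟨hPU, fwd_im hJ hτ hUD hDW, fun j hj => fwd_fix hJF hτ hUD (hB _ (hx1 j hj))⟩
  have hnid : ∃ z ∈ Hp, Phi τ φ z ≠ z := by
    unfold IsIdD at hid
    push Not at hid
    obtain ⟨w, hw, hne'⟩ := hid
    refine ⟨K' τ w, K'_Hp hτ hw, fun h => hne' ?_⟩
    have h1 := K_Phi hτ hUD.2.1 (K'_Hp hτ hw)
    rw [h, K_K' hτ0 (ball_ne hτ hw)] at h1
    exact h1.symm
  obtain ⟨ψ, Kc, h1, h2, h3, h4, h5⟩ := hG n x hmono (Phi τ φ) hCls hnid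
  refine ⟨fun s t => Psi τ (ψ s t), ⟨?_, ?_, ?_, ?_⟩, ?_, ?_⟩
  · intro s t hs hst
    have := Psi_uni hτ (h1 s t hs hst).1
    exact ⟨this.1, this.2.1⟩
  · intro s hs w hw
    show K τ (ψ s s (K' τ w)) = w
    rw [h2 s hs _ (K'_Hp hτ hw), K_K' hτ0 (ball_ne hτ hw)]
  · intro s u t hs hsu hut w hw
    show K τ (ψ s t (K' τ w)) = K τ (ψ u t (K' τ (K τ (ψ s u (K' τ w)))))
    rw [h3 s u t hs hsu hut _ (K'_Hp hτ hw),
      K'_K hτ0 (hp_ne ((h1 s u hs hsu).1.2.1 (K'_Hp hτ hw)))]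
  · intro w hw T hT
    refine ⟨fun _ => 2 * max (Kc (K' τ w)) 0, fun r => by positivity, ?_, ?_⟩
    · exact MeasureTheory.integrableOn_const (by simp)
    · intro s u t hs hsu hut _
      have hz := K'_Hp hτ hw
      have g1 := K_lip hτ ((h1 s u hs hsu).1.2.1 hz) ((h1 s t hs (hsu.trans hut)).1.2.1 hz)
      have g2 := h4 s u t hs hsu hut _ hz
      rw [intervalIntegral.integral_const, smul_eq_mul]
      show ‖K τ (ψ s u (K' τ w)) - K τ (ψ s t (K' τ w))‖ ≤ _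
      have g3 : Kc (K' τ w) * (t - u) ≤ max (Kc (K' τ w)) 0 * (t - u) :=
        mul_le_mul_of_nonneg_right (le_max_left _ _) (by linarith)
      linarith
  · intro s t hs hst
    obtain ⟨c1, c2, c3⟩ := h1 s t hs hst
    by_cases hI : IsIdD (Psi τ (ψ s t))
    · exact Or.inl hI
    · refine Or.inr ⟨hI, Psi_uni hτ c1, fun σ hσ => ?_, Or.inr ⟨hτs, fun w hw hfix => hI ?_, ?_⟩⟩
      · obtain ⟨j, hj, hjσ⟩ := hx2 σ hσ
        obtain ⟨C, hC⟩ := c3 j hj
        rw [← hjσ]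
        exact bwd_fix hJ hBD hτ c1 hC
      · have hz := K'_Hp hτ hw
        have e1 : ψ s t (K' τ w) = K' τ w := by
          have e2 : K' τ (K τ (ψ s t (K' τ w))) = K' τ w := congrArg (K' τ) hfix
          rwa [K'_K hτ0 (hp_ne (c1.2.1 hz))] at e2
        have hall := nofix hSP c1 c2 hz e1
        intro v hv
        show K τ (ψ s t (K' τ v)) = v
        rw [hall _ (K'_Hp hτ hv), K_K' hτ0 (ball_ne hτ hv)]
      · exact bwd_tau hJ hτ c1 c2
  · intro w hw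
    show K τ (ψ 0 1 (K' τ w)) = φ w
    rw [h5 _ (K'_Hp hτ hw), K_Phi hτ hUD.2.1 (K'_Hp hτ hw), K_K' hτ0 (ball_ne hτ hw)]

end Pool.Agent.Y256.LW
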