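import Pool.Agent.Y242.LW.Stm

/-!
Project LW, part DISC: the Cayley transform `K τ : Hp → 𝔻` sending `∞` to `τ`, Stolz regions.
-/

set_option autoImplicit false

open Set Filter Topology Complex Metric

noncomputable section

namespace Pool.Agent.Y256.LW

open LW242

/-- the Cayley transform -/
def K (τ z : ℂ) : ℂ := τ * (z - I) / (z + I)

/-- its inverse -/
def K' (τ w : ℂ) : ℂ := I * (τ + w) / (τ - w)

theorem hp_im {z : ℂ} (hz : z ∈ Hp) : 0 < z.im := hz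

theorem hp_ne {z : ℂ} (hz : z ∈ Hp) : z + I ≠ 0 := by
  intro h
  have h1 := congrArg Complex.im h
  simp at h1
  have := hp_im hz
  linarith

theorem real_ne (x : ℝ) : (x : ℂ) + I ≠ 0 := by
  intro h
  have h1 := congrArg Complex.im h
  simp at h1

theorem K_sub (τ : ℂ) {z w : ℂ} (hz : z + I ≠ 0) (hw : w + I ≠ 0) :
    K τ z - K τ w = 2 * I * τ * (z - w) / ((z + I) * (w + I)) := by
  unfold K
  field_simp
  ring

theorem K_sub_tau (τ : ℂ) {z : ℂ} (hz : z + I ≠ 0) : K τ z - τ = -2 * I * τ / (z + I) := by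
  unfold K
  field_simp
  ring

theorem sub_ne {τ w : ℂ} (h : w ≠ τ) : τ - w ≠ 0 := fun h' => h (sub_eq_zero.1 h').symm

theorem K'_add {τ w : ℂ} (h : w ≠ τ) : K' τ w + I = 2 * I * τ / (τ - w) := by
  have := sub_ne h
  unfold K'
  field_simp
  ring

theorem K'_ne {τ w : ℂ} (hτ : τ ≠ 0) (h : w ≠ τ) : K' τ w + I ≠ 0 := by
  rw [K'_add h]
  exact div_ne_zero (mul_ne_zero (mul_ne_zero two_ne_zero I_ne_zero) hτ) (sub_ne h)

theorem K_K' {τ w : ℂ} (hτ : τ ≠ 0) (h : w ≠ τ) : K τ (K' τ w) = w := by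
  have h1 := K'_ne hτ h
  have h2 := sub_ne h
  have h3 := K_sub_tau τ h1
  rw [K'_add h] at h3
  have h4 : -2 * I * τ / (2 * I * τ / (τ - w)) = w - τ := by
    have := I_ne_zero
    field_simp
    ring
  rw [h4] at h3
  exact sub_left_inj.1 h3

theorem K'_K {τ z : ℂ} (hτ : τ ≠ 0) (h : z + I ≠ 0) : K' τ (K τ z) = z := by
  have hI := I_ne_zero
  have h3 := K_sub_tau τ h
  have hne : K τ z ≠ τ := by
    intro h4
    rw [h4, sub_self] at h3
    exact div_ne_zero (mul_ne_zero (mul_ne_zero (neg_ne_zero.2 two_ne_zero) I_ne_zero) hτ) h h3.symm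
  have h5 := K'_add hne
  have h6 : τ - K τ z = 2 * I * τ / (z + I) := by
    have : τ - K τ z = -(K τ z - τ) := by ring
    rw [this, h3]
    ring
  rw [h6] at h5
  have h7 : 2 * I * τ / (2 * I * τ / (z + I)) = z + I := by
    field_simp
  rw [h7] at h5
  exact add_right_cancel h5

theorem norm_sq_sub (z : ℂ) : ‖z + I‖ ^ 2 - ‖z - I‖ ^ 2 = 4 * z.im := by
  rw [Complex.sq_norm, Complex.sq_norm, Complex.normSq_apply, Complex.normSq_apply]
  simp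
  ring

theorem one_sub {τ z : ℂ} (hτ : ‖τ‖ = 1) (hz : z + I ≠ 0) :
    1 - ‖K τ z‖ ^ 2 = 4 * z.im / ‖z + I‖ ^ 2 := by
  have h1 : 0 < ‖z + I‖ := norm_pos_iff.2 hz
  have h2 := norm_sq_sub z
  unfold K
  rw [norm_div, norm_mul, hτ, one_mul, div_pow]
  field_simp
  linarith

theorem K_ball {τ z : ℂ} (hτ : ‖τ‖ = 1) (hz : z ∈ Hp) : K τ z ∈ ball (0 : ℂ) 1 := by
  have h1 := one_sub hτ (hp_ne hz)
  have h2 : 0 < 4 * z.im / ‖z + I‖ ^ 2 := by
    have := hp_im hz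
    have := norm_pos_iff.2 (hp_ne hz)
    positivity
  rw [mem_ball_zero_iff]
  have h3 : 0 ≤ ‖K τ z‖ := norm_nonneg _
  nlinarith

theorem tau_ne {τ : ℂ} (hτ : ‖τ‖ = 1) : τ ≠ 0 := by
  intro h
  rw [h, norm_zero] at hτ
  exact zero_ne_one hτ

theorem ball_ne {τ w : ℂ} (hτ : ‖τ‖ = 1) (hw : w ∈ ball (0 : ℂ) 1) : w ≠ τ := by
  rintro rfl
  rw [mem_ball_zero_iff, hτ] at hw
  exact lt_irrefl _ hw

theorem K'_Hp {τ w : ℂ} (hτ : ‖τ‖ = 1) (hw : w ∈ ball (0 : ℂ) 1) : K' τ w ∈ Hp := by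
  have hne := ball_ne hτ hw
  have h1 := one_sub hτ (K'_ne (tau_ne hτ) hne)
  rw [K_K' (tau_ne hτ) hne] at h1
  have h2 : ‖w‖ < 1 := mem_ball_zero_iff.1 hw
  have h3 : 0 ≤ ‖w‖ := norm_nonneg _
  have h4 : 0 < ‖K' τ w + I‖ := norm_pos_iff.2 (K'_ne (tau_ne hτ) hne)
  have h5 : 0 < 4 * (K' τ w).im / ‖K' τ w + I‖ ^ 2 := by rw [← h1]; nlinarith
  rw [lt_div_iff₀ (by positivity), zero_mul] at h5
  show 0 < (K' τ w).im
  linarith

theorem K'_real {τ σ : ℂ} (hτ : ‖τ‖ = 1) (hσ : ‖σ‖ = 1) (hne : σ ≠ τ) :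
    (((K' τ σ).re : ℝ) : ℂ) = K' τ σ := by
  have h1 := one_sub hτ (K'_ne (tau_ne hτ) hne)
  rw [K_K' (tau_ne hτ) hne, hσ] at h1
  have h4 : 0 < ‖K' τ σ + I‖ := norm_pos_iff.2 (K'_ne (tau_ne hτ) hne)
  have h5 : (K' τ σ).im = 0 := by
    have : 4 * (K' τ σ).im / ‖K' τ σ + I‖ ^ 2 = 0 := by rw [← h1]; norm_num
    rw [div_eq_zero_iff] at this
    rcases this with h | h
    · linarith
    · exact absurd h (by positivity)
  apply Complex.ext
  · simp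
  · simp [h5]

theorem K_norm_sub {τ z w : ℂ} (hτ : ‖τ‖ = 1) (hz : z + I ≠ 0) (hw : w + I ≠ 0) :
    ‖K τ z - K τ w‖ = 2 * ‖z - w‖ / (‖z + I‖ * ‖w + I‖) := by
  rw [K_sub τ hz hw, norm_div, norm_mul, norm_mul, norm_mul, norm_mul, hτ]
  simp

theorem K_norm_tau {τ z : ℂ} (hτ : ‖τ‖ = 1) (hz : z + I ≠ 0) :
    ‖K τ z - τ‖ = 2 / ‖z + I‖ := by
  rw [K_sub_tau τ hz, norm_div, norm_mul, norm_mul, hτ]
  simp

theorem one_le_norm {z : ℂ} (hz : 0 ≤ z.im) : 1 ≤ ‖z + I‖ := by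
  have h1 := Complex.abs_im_le_norm (z + I)
  have h2 : (z + I).im = z.im + 1 := by simp
  rw [h2, abs_of_nonneg (by linarith)] at h1
  linarith

theorem norm_le_add {z : ℂ} (hz : 0 ≤ z.im) : ‖z‖ ≤ ‖z + I‖ := by
  have h : ‖z‖ ^ 2 ≤ ‖z + I‖ ^ 2 := by
    rw [Complex.sq_norm, Complex.sq_norm, Complex.normSq_apply, Complex.normSq_apply]
    simp
    nlinarith
  exact (sq_le_sq₀ (norm_nonneg _) (norm_nonneg _)).1 h

theorem K_lip {τ a b : ℂ} (hτ : ‖τ‖ = 1) (ha : a ∈ Hp) (hb : b ∈ Hp) :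
    ‖K τ a - K τ b‖ ≤ 2 * ‖a - b‖ := by
  rw [K_norm_sub hτ (hp_ne ha) (hp_ne hb)]
  have h1 := one_le_norm (hp_im ha).le
  have h2 := one_le_norm (hp_im hb).le
  have h3 : 1 ≤ ‖a + I‖ * ‖b + I‖ := by nlinarith
  rw [div_le_iff₀ (by linarith)]
  have h4 : 0 ≤ 2 * ‖a - b‖ := by positivity
  nlinarith

theorem stolz_of {τ σ z : ℂ} {M : ℝ} (hτ : ‖τ‖ = 1) (hz : z ∈ Hp) (hM : 0 < M)
    (h : ‖K τ z - σ‖ * ‖z + I‖ ^ 2 < 2 * M * z.im) : K τ z ∈ Stolz σ M := by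
  have h1 := mem_ball_zero_iff.1 (K_ball hτ hz)
  refine ⟨h1, ?_⟩
  have h2 := one_sub hτ (hp_ne hz)
  have h3 : 0 < ‖z + I‖ := norm_pos_iff.2 (hp_ne hz)
  have h4 : ‖K τ z - σ‖ < 2 * M * z.im / ‖z + I‖ ^ 2 := by
    rwa [lt_div_iff₀ (by positivity)]
  refine h4.trans_le ?_
  have h5 : 2 * M * z.im / ‖z + I‖ ^ 2 = M / 2 * (4 * z.im / ‖z + I‖ ^ 2) := by ring
  rw [h5, ← h2]
  have h7 : 1 - ‖K τ z‖ ^ 2 ≤ 2 * (1 - ‖K τ z‖) := by nlinarith [sq_nonneg (1 - ‖K τ z‖)]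
  have h8 := mul_le_mul_of_nonneg_left h7 (show 0 ≤ M / 2 by positivity)
  linarith

theorem stolz_bd {τ σ z : ℂ} {M : ℝ} (hτ : ‖τ‖ = 1) (hz : z ∈ Hp) (hM : 0 < M)
    (h : K τ z ∈ Stolz σ M) : ‖K τ z - σ‖ * ‖z + I‖ ^ 2 < 4 * M * z.im := by
  obtain ⟨h1, h1'⟩ := h
  have h2 := one_sub hτ (hp_ne hz)
  have h3 : 0 < ‖z + I‖ := norm_pos_iff.2 (hp_ne hz)
  have h6 : 0 ≤ ‖K τ z‖ := norm_nonneg _
  have h4 : ‖K τ z - σ‖ < M * (4 * z.im / ‖z + I‖ ^ 2) := by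
    rw [← h2]
    refine h1'.trans_le (mul_le_mul_of_nonneg_left ?_ hM.le)
    nlinarith
  have h5 : M * (4 * z.im / ‖z + I‖ ^ 2) = 4 * M * z.im / ‖z + I‖ ^ 2 := by ring
  rw [h5, lt_div_iff₀ (by positivity)] at h4
  exact h4

theorem K_diff (τ : ℂ) {z : ℂ} (hz : z + I ≠ 0) : DifferentiableAt ℂ (K τ) z := by
  unfold K
  exact ((differentiableAt_const _).mul (differentiableAt_id.sub_const _)).div
    (differentiableAt_id.add_const _) hz

theorem K'_diff (τ : ℂ) {w : ℂ} (hw : w ≠ τ) : DifferentiableAt ℂ (K' τ) w := by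
  unfold K'
  exact ((differentiableAt_const _).mul ((differentiableAt_const _).add differentiableAt_id)).div
    ((differentiableAt_const _).sub differentiableAt_id) (sub_ne hw)

theorem Hp_open : IsOpen Hp := isOpen_lt continuous_const Complex.continuous_im

theorem iy_Hp {y : ℝ} (hy : 0 < y) : ((y : ℂ) * I) ∈ Hp := by
  show 0 < ((y : ℂ) * I).im
  simpa using hy

/-- the sequence `i (k + 1)` -/
def zk (k : ℕ) : ℂ := (((k : ℝ) + 1 : ℝ) : ℂ) * I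

theorem zk_im (k : ℕ) : (zk k).im = (k : ℝ) + 1 := by simp [zk]

theorem zk_norm (k : ℕ) : ‖zk k‖ = (k : ℝ) + 1 := by
  unfold zk
  rw [norm_mul, Complex.norm_I, mul_one, Complex.norm_real, Real.norm_eq_abs,
    abs_of_nonneg (by positivity)]

theorem zk_Hp (k : ℕ) : zk k ∈ Hp := by
  show 0 < (zk k).im
  rw [zk_im]
  positivity

theorem zk_NTI {M : ℝ} (hM : 1 ≤ M) : Tendsto zk atTop (NTI M) := by
  refine tendsto_inf.2 ⟨tendsto_comap_iff.2 ?_, tendsto_principal.2 ?_⟩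
  · have e : ((fun z : ℂ => ‖z‖) ∘ zk) = fun k : ℕ => (k : ℝ) + 1 := by
      funext k
      exact zk_norm k
    rw [e]
    exact tendsto_atTop_add_const_right _ _ tendsto_natCast_atTop_atTop
  · refine Eventually.of_forall fun k => ⟨zk_Hp k, ?_⟩
    rw [zk_norm, zk_im]
    have : (0 : ℝ) ≤ (k : ℝ) + 1 := by positivity
    nlinarith

theorem NTI_inv {α : Type*} {l : Filter α} {Z : α → ℂ} {M : ℝ} (hZ : Tendsto Z l (NTI M)) :
    Tendsto (fun a => I / Z a) l (𝓝 0) := by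
  have h1 : Tendsto (fun a => ‖Z a‖) l atTop := tendsto_comap_iff.1 (tendsto_inf.1 hZ).1
  rw [tendsto_zero_iff_norm_tendsto_zero]
  have e : (fun a => ‖I / Z a‖) = fun a => ‖Z a‖⁻¹ := by
    funext a
    rw [norm_div, Complex.norm_I, one_div]
  rw [e]
  exact tendsto_inv_atTop_zero.comp h1

theorem NTI_Hp {α : Type*} {l : Filter α} {Z : α → ℂ} {M : ℝ} (hZ : Tendsto Z l (NTI M)) :
    ∀ᶠ a in l, Z a ∈ Hp := by
  have h1 := tendsto_principal.1 (tendsto_inf.1 hZ).2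
  filter_upwards [h1] with a ha
  exact ha.1

/-- the quotient of the shifted values -/
theorem quot_lim {α : Type*} {l : Filter α} {Z : α → ℂ} {h : ℂ → ℂ} {M : ℝ} {c : ℂ}
    (hZ : Tendsto Z l (NTI M)) (hc : Tendsto (fun z => h z / z) (NTI M) (𝓝 c)) :
    Tendsto (fun a => (h (Z a) + I) / (Z a + I)) l (𝓝 c) := by
  have h1 := hc.comp hZ
  have h2 := NTI_inv hZ
  have h3 : Tendsto (fun a => (h (Z a) / Z a + I / Z a) / (1 + I / Z a)) l (𝓝 ((c + 0) / (1 + 0))) :=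
    (h1.add h2).div (tendsto_const_nhds.add h2) (by simp)
  rw [add_zero, add_zero, div_one] at h3
  refine h3.congr' ?_
  filter_upwards [NTI_Hp hZ] with a ha
  have h4 : Z a ≠ 0 := by
    intro h0
    have := hp_im ha
    rw [h0] at this
    simp at this
  have h5 := hp_ne ha
  field_simp

theorem jwc_ge {h : ℂ → ℂ} {c b : ℝ}
    (hlim : ∀ M : ℝ, Tendsto (fun z => h z / z) (NTI M) (𝓝 (c : ℂ)))
    (hb : ∀ z ∈ Hp, b * z.im ≤ (h z).im) : b ≤ c := by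
  have h1 := (hlim 1).comp (zk_NTI le_rfl)
  have h2 : Tendsto (fun k => (h (zk k) / zk k).re) atTop (𝓝 c) := by
    have := (Complex.continuous_re.tendsto (c : ℂ)).comp h1
    rw [Complex.ofReal_re] at this
    exact this
  refine ge_of_tendsto' h2 fun k => ?_
  have h3 := hb (zk k) (zk_Hp k)
  rw [zk_im] at h3
  have h4 : (h (zk k) / zk k).re = (h (zk k)).im / ((k : ℝ) + 1) := by
    have h5 : (0 : ℝ) < (k : ℝ) + 1 := by positivity
    unfold zk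
    rw [Complex.div_re]
    simp only [Complex.mul_re, Complex.mul_im, Complex.ofReal_re, Complex.ofReal_im, Complex.I_re,
      Complex.I_im, Complex.normSq_apply]
    field_simp
    ring
  rw [h4, le_div_iff₀ (by positivity)]
  exact h3

end Pool.Agent.Y256.LW
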