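import Pool.Agent.Y256.LW.D1

/-!
Project LW, part DISC: from the disc to the half-plane.
-/

set_option autoImplicit false

open Set Filter Topology Complex Metric

noncomputable section

namespace Pool.Agent.Y256.LW

open LW242

/-- transfer of a self-map of the disc to the half-plane -/
def Phi (τ : ℂ) (φ : ℂ → ℂ) (z : ℂ) : ℂ := K' τ (φ (K τ z))

theorem K_Phi {τ : ℂ} (hτ : ‖τ‖ = 1) {φ : ℂ → ℂ} (hm : MapsTo φ (ball 0 1) (ball 0 1)) {z : ℂ}
    (hz : z ∈ Hp) : K τ (Phi τ φ z) = φ (K τ z) :=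
  K_K' (tau_ne hτ) (ball_ne hτ (hm (K_ball hτ hz)))

theorem Phi_Hp {τ : ℂ} (hτ : ‖τ‖ = 1) {φ : ℂ → ℂ} (hm : MapsTo φ (ball 0 1) (ball 0 1)) {z : ℂ}
    (hz : z ∈ Hp) : Phi τ φ z ∈ Hp := K'_Hp hτ (hm (K_ball hτ hz))

theorem Phi_uni {τ : ℂ} (hτ : ‖τ‖ = 1) {φ : ℂ → ℂ} (hU : UniD φ) : Uni (Phi τ φ) := by
  obtain ⟨h1, h2, h3⟩ := hU
  refine ⟨?_, fun z hz => Phi_Hp hτ h2 hz, ?_⟩
  · intro z hz
    have g1 : DifferentiableAt ℂ (K τ) z := K_diff τ (hp_ne hz)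
    have g2 : DifferentiableAt ℂ φ (K τ z) :=
      h1.differentiableAt (isOpen_ball.mem_nhds (K_ball hτ hz))
    have g3 : DifferentiableAt ℂ (K' τ) (φ (K τ z)) :=
      K'_diff τ (ball_ne hτ (h2 (K_ball hτ hz)))
    exact (DifferentiableAt.comp z g3 (DifferentiableAt.comp z g2 g1)).differentiableWithinAt
  · intro z hz w hw hzw
    have e1 : φ (K τ z) = φ (K τ w) := by
      rw [← K_Phi hτ h2 hz, ← K_Phi hτ h2 hw, hzw]
    have e2 := h3 (K_ball hτ hz) (K_ball hτ hw) e1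
    rw [← K'_K (tau_ne hτ) (hp_ne hz), ← K'_K (tau_ne hτ) (hp_ne hw), e2]

theorem seq_tau {τ : ℂ} (hτ : ‖τ‖ = 1) :
    Tendsto (fun k => K τ (zk k)) atTop (𝓝[Stolz τ 3] τ) := by
  rw [tendsto_nhdsWithin_iff]
  constructor
  · rw [tendsto_iff_norm_sub_tendsto_zero]
    have h1 : Tendsto (fun k : ℕ => 2 / ((k : ℝ) + 1)) atTop (𝓝 0) :=
      tendsto_const_nhds.div_atTop
        (tendsto_atTop_add_const_right _ _ tendsto_natCast_atTop_atTop)
    refine squeeze_zero (fun k => norm_nonneg _) (fun k => ?_) h1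
    rw [K_norm_tau hτ (hp_ne (zk_Hp k))]
    have h2 := norm_le_add (hp_im (zk_Hp k)).le
    rw [zk_norm] at h2
    exact div_le_div_of_nonneg_left (by norm_num) (by positivity) h2
  · refine Eventually.of_forall fun k => stolz_of hτ (zk_Hp k) (by norm_num) ?_
    rw [K_norm_tau hτ (hp_ne (zk_Hp k)), zk_im]
    have h3 : 0 < ‖zk k + I‖ := norm_pos_iff.2 (hp_ne (zk_Hp k))
    have e : 2 / ‖zk k + I‖ * ‖zk k + I‖ ^ 2 = 2 * ‖zk k + I‖ := by
      field_simp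
    rw [e]
    have h4 : ‖zk k + I‖ ≤ (k : ℝ) + 1 + 1 := by
      refine (norm_add_le _ _).trans ?_
      rw [zk_norm, Complex.norm_I]
    have h5 : (0 : ℝ) ≤ k := Nat.cast_nonneg k
    nlinarith

/-- `∞` is the Denjoy–Wolff point -/
theorem fwd_im (hJ : S_JWC) {τ : ℂ} (hτ : ‖τ‖ = 1) {φ : ℂ → ℂ} (hU : UniD φ)
    (hDW : IsDW φ τ) : ∀ z ∈ Hp, z.im ≤ (Phi τ φ z).im := by
  have hm := hU.2.1
  have hPU := Phi_uni hτ hU
  obtain ⟨c, hc0, hcim, hclim⟩ := hJ (Phi τ φ) hPU.1 (fun z hz => (hp_im (hPU.2.1 hz)).le)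
  have hd : ∃ d : ℝ, d ≤ 1 ∧ BRFPwith φ τ d := by
    rcases hDW with ⟨h, -⟩ | ⟨-, -, h⟩
    · exact absurd rfl (ball_ne hτ h)
    · exact h
  obtain ⟨d, hd1, -, hA⟩ := hd
  have h1 := (hA 3 (by norm_num)).comp (seq_tau hτ)
  have h2 := quot_lim (zk_NTI le_rfl) (hclim 1)
  have h3 := h2.mul h1
  have h4 : Tendsto (fun _ : ℕ => (1 : ℂ)) atTop (𝓝 ((c : ℂ) * (d : ℂ))) := by
    refine h3.congr fun k => ?_
    simp only [Function.comp_apply]
    have n1 := hp_ne (zk_Hp k)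
    have n2 := hp_ne (hPU.2.1 (zk_Hp k))
    rw [← K_Phi hτ hm (zk_Hp k), K_sub_tau τ n1, K_sub_tau τ n2]
    have hτ0 := tau_ne hτ
    have hI := I_ne_zero
    field_simp
  have h5 : (1 : ℂ) = (c : ℂ) * (d : ℂ) := tendsto_nhds_unique tendsto_const_nhds h4
  have h6 : (1 : ℝ) = c * d := by exact_mod_cast h5
  have h7 : 1 ≤ c := by nlinarith
  intro z hz
  have h8 := hcim z hz
  have h9 := hp_im hz
  nlinarith

/-- the sequence `x + i / (k + 1)` -/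
def xk (x : ℝ) (k : ℕ) : ℂ := (x : ℂ) + ((1 / ((k : ℝ) + 1) : ℝ) : ℂ) * I

theorem xk_im (x : ℝ) (k : ℕ) : (xk x k).im = 1 / ((k : ℝ) + 1) := by
  unfold xk
  simp only [Complex.add_im, Complex.ofReal_im, Complex.mul_im, Complex.ofReal_re, Complex.I_im,
    Complex.I_re]
  ring

theorem xk_sub (x : ℝ) (k : ℕ) : ‖xk x k - x‖ = 1 / ((k : ℝ) + 1) := by
  have e : xk x k - x = ((1 / ((k : ℝ) + 1) : ℝ) : ℂ) * I := by unfold xk; ring
  rw [e, norm_mul, Complex.norm_I, mul_one, Complex.norm_real, Real.norm_eq_abs,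
    abs_of_nonneg (by positivity)]

theorem xk_Hp (x : ℝ) (k : ℕ) : xk x k ∈ Hp := by
  show 0 < (xk x k).im
  rw [xk_im]
  positivity

theorem xk_lim (x : ℝ) : Tendsto (xk x) atTop (𝓝 (x : ℂ)) := by
  rw [tendsto_iff_norm_sub_tendsto_zero]
  simp only [xk_sub]
  exact tendsto_one_div_add_atTop_nhds_zero_nat

theorem seq_x {τ : ℂ} (hτ : ‖τ‖ = 1) (x : ℝ) :
    Tendsto (fun k => K τ (xk x k)) atTop (𝓝[Stolz (K τ x) 3] (K τ x)) := by
  rw [tendsto_nhdsWithin_iff]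
  constructor
  · exact (K_diff τ (real_ne x)).continuousAt.tendsto.comp (xk_lim x)
  · refine Eventually.of_forall fun k => stolz_of hτ (xk_Hp x k) (by norm_num) ?_
    rw [K_norm_sub hτ (hp_ne (xk_Hp x k)) (real_ne x), xk_sub, xk_im]
    have h3 : 0 < ‖xk x k + I‖ := norm_pos_iff.2 (hp_ne (xk_Hp x k))
    have h4 : 1 ≤ ‖(x : ℂ) + I‖ := one_le_norm (by simp)
    have h5 : (0 : ℝ) < 1 / ((k : ℝ) + 1) := by positivity
    have h6 : 1 / ((k : ℝ) + 1) ≤ 1 := by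
      rw [div_le_one (by positivity)]
      have : (0 : ℝ) ≤ k := Nat.cast_nonneg k
      linarith
    have h7 : ‖xk x k + I‖ ≤ ‖(x : ℂ) + I‖ + 1 / ((k : ℝ) + 1) := by
      have e : xk x k + I = ((x : ℂ) + I) + (xk x k - x) := by ring
      rw [e]
      refine (norm_add_le _ _).trans ?_
      rw [xk_sub]
    set e : ℝ := 1 / ((k : ℝ) + 1) with he
    have h8 : 2 * e / (‖xk x k + I‖ * ‖(x : ℂ) + I‖) * ‖xk x k + I‖ ^ 2 =
        2 * e * (‖xk x k + I‖ / ‖(x : ℂ) + I‖) := by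
      field_simp
    rw [h8]
    have h9 : ‖xk x k + I‖ / ‖(x : ℂ) + I‖ < 3 := by
      rw [div_lt_iff₀ (by linarith)]
      linarith
    nlinarith

/-- boundary regular fixed points at finite distance -/
theorem fwd_fix (hJF : S_JFIN) {τ : ℂ} (hτ : ‖τ‖ = 1) {φ : ℂ → ℂ} (hU : UniD φ)
    {x : ℝ} (hB : BRFP φ (K τ x)) : ∃ C : ℝ, Jul (Phi τ φ) x x C := by
  have hm := hU.2.1
  have hPU := Phi_uni hτ hU
  obtain ⟨d, hA1, hA2⟩ := hB
  have hτ0 := tau_ne hτ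
  have hI := I_ne_zero
  have hx := real_ne x
  have s1 := seq_x hτ x
  have h1 : Tendsto (fun k => φ (K τ (xk x k))) atTop (𝓝 (K τ x)) :=
    (hA1 3 (by norm_num)).comp s1
  have hne : K τ x ≠ τ := by
    intro h
    have := K_sub_tau τ hx
    rw [h, sub_self] at this
    exact div_ne_zero (mul_ne_zero (mul_ne_zero (neg_ne_zero.2 two_ne_zero) hI) hτ0) hx this.symm
  have h2 : Tendsto (fun k => Phi τ φ (xk x k)) atTop (𝓝 (x : ℂ)) := by
    have := (K'_diff τ hne).continuousAt.tendsto.comp h1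
    rw [K'_K hτ0 hx] at this
    exact this
  have h3 := (hA2 3 (by norm_num)).comp s1
  have h4 : Tendsto (fun k => (Phi τ φ (xk x k) + I) / (xk x k + I)) atTop (𝓝 1) := by
    have := (h2.add_const I).div ((xk_lim x).add_const I) hx
    rwa [div_self hx] at this
  have h5 : Tendsto (fun k => (Phi τ φ (xk x k) - x) / (xk x k - x)) atTop (𝓝 d) := by
    have := h3.mul h4
    rw [mul_one] at this
    refine this.congr fun k => ?_
    simp only [Function.comp_apply]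
    have n1 := hp_ne (xk_Hp x k)
    have n2 := hp_ne (hPU.2.1 (xk_Hp x k))
    have n3 : xk x k - x ≠ 0 := by
      have : 0 < ‖xk x k - x‖ := by rw [xk_sub]; positivity
      exact norm_pos_iff.1 this
    rw [← K_Phi hτ hm (xk_Hp x k), K_sub τ n1 hx, K_sub τ n2 hx]
    field_simp
  refine ⟨‖d‖, hJF (Phi τ φ) x x ‖d‖ (xk x) (fun k => ‖(Phi τ φ (xk x k) - x) / (xk x k - x)‖)
    hPU.1 (fun z hz => (hp_im (hPU.2.1 hz)).le) (xk_Hp x) (xk_lim x) h2 (fun k => ?_) h5.norm⟩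
  have n3 : 0 < ‖xk x k - x‖ := by rw [xk_sub]; positivity
  rw [norm_div, xk_im, ← xk_sub x k, div_mul_cancel₀ _ n3.ne']
  have e : (Phi τ φ (xk x k)).im = (Phi τ φ (xk x k) - x).im := by simp
  rw [e]
  exact (le_abs_self _).trans (Complex.abs_im_le_norm _)

end Pool.Agent.Y256.LW
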