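import Pool.Agent.Y256.LW.D2

/-!
Project LW, part DISC: from the half-plane to the disc.
-/

set_option autoImplicit false

open Set Filter Topology Complex Metric

noncomputable section

namespace Pool.Agent.Y256.LW

open LW242

/-- transfer of a self-map of the half-plane to the disc -/
def Psi (τ : ℂ) (ψ : ℂ → ℂ) (w : ℂ) : ℂ := K τ (ψ (K' τ w))

theorem Psi_uni {τ : ℂ} (hτ : ‖τ‖ = 1) {ψ : ℂ → ℂ} (hU : Uni ψ) : UniD (Psi τ ψ) := by
  obtain ⟨h1, h2, h3⟩ := hU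
  refine ⟨?_, fun w hw => K_ball hτ (h2 (K'_Hp hτ hw)), ?_⟩
  · intro w hw
    have g1 : DifferentiableAt ℂ (K' τ) w := K'_diff τ (ball_ne hτ hw)
    have g2 : DifferentiableAt ℂ ψ (K' τ w) := h1.differentiableAt (Hp_open.mem_nhds (K'_Hp hτ hw))
    have g3 : DifferentiableAt ℂ (K τ) (ψ (K' τ w)) := K_diff τ (hp_ne (h2 (K'_Hp hτ hw)))
    exact (DifferentiableAt.comp w g3 (DifferentiableAt.comp w g2 g1)).differentiableWithinAt
  · intro w hw w' hw' hww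
    have hτ0 := tau_ne hτ
    have e1 : ψ (K' τ w) = ψ (K' τ w') := by
      rw [← K'_K hτ0 (hp_ne (h2 (K'_Hp hτ hw))), ← K'_K hτ0 (hp_ne (h2 (K'_Hp hτ hw')))]
      exact congrArg (K' τ) hww
    have e2 := h3 (K'_Hp hτ hw) (K'_Hp hτ hw') e1
    rw [← K_K' hτ0 (ball_ne hτ hw), ← K_K' hτ0 (ball_ne hτ hw'), e2]

theorem stolz_ball {σ w : ℂ} {M : ℝ} (h : w ∈ Stolz σ M) : w ∈ ball (0 : ℂ) 1 :=
  mem_ball_zero_iff.2 h.1

theorem tend_tau {τ : ℂ} (hτ : ‖τ‖ = 1) {M : ℝ} (hM : 0 < M) :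
    Tendsto (K' τ) (𝓝[Stolz τ M] τ) (NTI (2 * M)) := by
  have hτ0 := tau_ne hτ
  refine tendsto_inf.2 ⟨tendsto_comap_iff.2 ?_, tendsto_principal.2 ?_⟩
  · have h1 : Tendsto (fun w : ℂ => ‖τ - w‖) (𝓝[Stolz τ M] τ) (𝓝[>] 0) := by
      rw [tendsto_nhdsWithin_iff]
      constructor
      · have : Tendsto (fun w : ℂ => ‖τ - w‖) (𝓝 τ) (𝓝 ‖τ - τ‖) :=
          (Continuous.norm (continuous_const.sub continuous_id)).tendsto τ
        rw [sub_self, norm_zero] at this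
        exact this.mono_left nhdsWithin_le_nhds
      · filter_upwards [self_mem_nhdsWithin] with w hw
        exact norm_pos_iff.2 (sub_ne (ball_ne hτ (stolz_ball hw)))
    have h2 : Tendsto (fun w : ℂ => 2 * ‖τ - w‖⁻¹ - 1) (𝓝[Stolz τ M] τ) atTop :=
      tendsto_atTop_add_const_right _ (-1)
        ((tendsto_inv_nhdsGT_zero.comp h1).const_mul_atTop (by norm_num : (0:ℝ) < 2))
    refine tendsto_atTop_mono' _ ?_ h2
    filter_upwards [self_mem_nhdsWithin] with w hw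
    have hne := ball_ne hτ (stolz_ball hw)
    have h3 : ‖K' τ w + I‖ = 2 * ‖τ - w‖⁻¹ := by
      rw [K'_add hne, norm_div, norm_mul, norm_mul, hτ]
      simp [div_eq_mul_inv]
    have h4 : ‖K' τ w + I‖ ≤ ‖K' τ w‖ + 1 := by
      refine (norm_add_le _ _).trans ?_
      rw [Complex.norm_I]
    simp only [Function.comp_apply]
    linarith
  · filter_upwards [self_mem_nhdsWithin] with w hw
    have hb := stolz_ball hw
    have hne := ball_ne hτ hb
    have hz := K'_Hp hτ hb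
    refine ⟨hz, ?_⟩
    have h1 : K τ (K' τ w) ∈ Stolz τ M := by rwa [K_K' hτ0 hne]
    have h2 := stolz_bd hτ hz hM h1
    rw [K_norm_tau hτ (hp_ne hz)] at h2
    have h3 : 0 < ‖K' τ w + I‖ := norm_pos_iff.2 (hp_ne hz)
    have e : 2 / ‖K' τ w + I‖ * ‖K' τ w + I‖ ^ 2 = 2 * ‖K' τ w + I‖ := by
      field_simp
    rw [e] at h2
    have h4 := norm_le_add (hp_im hz).le
    linarith

theorem bwd_tau (hJ : S_JWC) {τ : ℂ} (hτ : ‖τ‖ = 1) {ψ : ℂ → ℂ} (hU : Uni ψ)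
    (him : ∀ z ∈ Hp, z.im ≤ (ψ z).im) : ∃ d : ℝ, d ≤ 1 ∧ BRFPwith (Psi τ ψ) τ d := by
  have hτ0 := tau_ne hτ
  obtain ⟨c, -, -, hclim⟩ := hJ ψ hU.1 (fun z hz => (hp_im (hU.2.1 hz)).le)
  have hc1 : 1 ≤ c := jwc_ge hclim (fun z hz => by rw [one_mul]; exact him z hz)
  have hc0 : (c : ℂ) ≠ 0 := by
    norm_cast
    linarith
  have key : AngLim (fun w => (Psi τ ψ w - τ) / (w - τ)) τ ((1 / c : ℝ) : ℂ) := by
    intro M hM
    have h1 := tend_tau hτ (show 0 < M by linarith)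
    have h2 := (quot_lim h1 (hclim _)).inv₀ hc0
    have e : ((1 / c : ℝ) : ℂ) = ((c : ℂ))⁻¹ := by push_cast; rw [one_div]
    rw [e]
    refine h2.congr' ?_
    filter_upwards [self_mem_nhdsWithin] with w hw
    have hb := stolz_ball hw
    have hne := ball_ne hτ hb
    have hz := K'_Hp hτ hb
    have n1 := hp_ne hz
    have n2 := hp_ne (hU.2.1 hz)
    have hw' : w - τ = -2 * I * τ / (K' τ w + I) := by
      have := K_sub_tau τ n1
      rwa [K_K' hτ0 hne] at this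
    have hI := I_ne_zero
    unfold Psi
    rw [hw', K_sub_tau τ n2]
    field_simp
  refine ⟨1 / c, ?_, ?_, key⟩
  · rw [div_le_one (by linarith)]
    exact hc1
  · intro M hM
    have h1 : Tendsto (fun w : ℂ => w - τ) (𝓝[Stolz τ M] τ) (𝓝 0) := by
      have : Tendsto (fun w : ℂ => w - τ) (𝓝 τ) (𝓝 (τ - τ)) :=
        (continuous_id.sub continuous_const).tendsto τ
      rw [sub_self] at this
      exact this.mono_left nhdsWithin_le_nhds
    have h2 := (h1.mul (key M hM)).add_const τ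
    rw [zero_mul, zero_add] at h2
    refine h2.congr' ?_
    filter_upwards [self_mem_nhdsWithin] with w hw
    have hne := ball_ne hτ (stolz_ball hw)
    have : w - τ ≠ 0 := sub_ne_zero.2 hne
    field_simp
    ring

theorem neg_inv_im (v : ℂ) : (-1 / v).im = v.im / ‖v‖ ^ 2 := by
  rw [neg_div, Complex.neg_im, one_div, Complex.inv_im, Complex.sq_norm]
  ring

theorem neg_inv_Hp {v : ℂ} (hv : v ∈ Hp) : -1 / v ∈ Hp := by
  show 0 < (-1 / v).im
  rw [neg_inv_im]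
  have h1 := hp_im hv
  have h2 : v ≠ 0 := by
    rintro rfl
    simp at h1
  have h3 := norm_pos_iff.2 h2
  positivity

theorem sub_Hp {v : ℂ} (hv : v ∈ Hp) (x : ℝ) : v - x ∈ Hp := by
  show 0 < (v - x).im
  simpa using hp_im hv

theorem add_Hp {v : ℂ} (hv : v ∈ Hp) (x : ℝ) : (x : ℂ) + v ∈ Hp := by
  show 0 < ((x : ℂ) + v).im
  simpa using hp_im hv

theorem Hp_ne0 {v : ℂ} (hv : v ∈ Hp) : v ≠ 0 := by
  rintro rfl
  have := hp_im hv
  simp at this

theorem K_real_ne {τ : ℂ} (hτ : ‖τ‖ = 1) (x : ℝ) : K τ x ≠ τ := by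
  intro h
  have := K_sub_tau τ (real_ne x)
  rw [h, sub_self] at this
  exact div_ne_zero (mul_ne_zero (mul_ne_zero (neg_ne_zero.2 two_ne_zero) I_ne_zero)
    (tau_ne hτ)) (real_ne x) this.symm

theorem K'_tend {τ : ℂ} (hτ : ‖τ‖ = 1) (x : ℝ) (M : ℝ) :
    Tendsto (K' τ) (𝓝[Stolz (K τ x) M] (K τ x)) (𝓝 (x : ℂ)) := by
  have := (K'_diff τ (K_real_ne hτ x)).continuousAt.tendsto
  rw [K'_K (tau_ne hτ) (real_ne x)] at this
  exact this.mono_left nhdsWithin_le_nhds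

theorem tend_u {τ : ℂ} (hτ : ‖τ‖ = 1) (x : ℝ) {M : ℝ} (hM : 0 < M) :
    Tendsto (fun w => -1 / (K' τ w - x)) (𝓝[Stolz (K τ x) M] (K τ x))
      (NTI (2 * M * ‖(x : ℂ) + I‖)) := by
  have hτ0 := tau_ne hτ
  refine tendsto_inf.2 ⟨tendsto_comap_iff.2 ?_, tendsto_principal.2 ?_⟩
  · have h1 : Tendsto (fun w : ℂ => ‖K' τ w - x‖) (𝓝[Stolz (K τ x) M] (K τ x)) (𝓝[>] 0) := by
      rw [tendsto_nhdsWithin_iff]
      constructor
      · have := ((K'_tend hτ x M).sub_const (x : ℂ)).norm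
        rwa [sub_self, norm_zero] at this
      · filter_upwards [self_mem_nhdsWithin] with w hw
        exact norm_pos_iff.2 (Hp_ne0 (sub_Hp (K'_Hp hτ (stolz_ball hw)) x))
    have e : ((fun z : ℂ => ‖z‖) ∘ fun w => -1 / (K' τ w - x)) =
        fun w => ‖K' τ w - x‖⁻¹ := by
      funext w
      simp
    rw [e]
    exact tendsto_inv_nhdsGT_zero.comp h1
  · filter_upwards [self_mem_nhdsWithin] with w hw
    have hb := stolz_ball hw
    have hne := ball_ne hτ hb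
    have hz := K'_Hp hτ hb
    have hv := sub_Hp hz x
    refine ⟨neg_inv_Hp hv, ?_⟩
    have h1 : K τ (K' τ w) ∈ Stolz (K τ x) M := by rwa [K_K' hτ0 hne]
    have h2 := stolz_bd hτ hz hM h1
    rw [K_norm_sub hτ (hp_ne hz) (real_ne x)] at h2
    have h3 : 0 < ‖K' τ w + I‖ := norm_pos_iff.2 (hp_ne hz)
    have h3' : 1 ≤ ‖K' τ w + I‖ := one_le_norm (hp_im hz).le
    have h4 : 0 < ‖(x : ℂ) + I‖ := norm_pos_iff.2 (real_ne x)
    have h5 : 0 < ‖K' τ w - x‖ := norm_pos_iff.2 (Hp_ne0 hv)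
    have e : 2 * ‖K' τ w - x‖ / (‖K' τ w + I‖ * ‖(x : ℂ) + I‖) * ‖K' τ w + I‖ ^ 2 =
        2 * ‖K' τ w - x‖ * ‖K' τ w + I‖ / ‖(x : ℂ) + I‖ := by
      field_simp
    rw [e, div_lt_iff₀ h4] at h2
    have h6 : ‖K' τ w - x‖ ≤ 2 * M * ‖(x : ℂ) + I‖ * (K' τ w).im := by nlinarith
    rw [neg_inv_im, norm_div, norm_neg, norm_one]
    have h7 : (K' τ w - x).im = (K' τ w).im := by simp
    rw [h7]
    have h8 : 2 * M * ‖(x : ℂ) + I‖ * ((K' τ w).im / ‖K' τ w - x‖ ^ 2) =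
        (2 * M * ‖(x : ℂ) + I‖ * (K' τ w).im) / ‖K' τ w - x‖ ^ 2 := by ring
    rw [h8, le_div_iff₀ (by positivity)]
    have h9 : 1 / ‖K' τ w - x‖ * ‖K' τ w - x‖ ^ 2 = ‖K' τ w - x‖ := by
      field_simp
    rw [h9]
    exact h6

theorem bwd_fix (hJ : S_JWC) (hBD : S_JBD) {τ : ℂ} (hτ : ‖τ‖ = 1) {ψ : ℂ → ℂ} (hU : Uni ψ)
    {x C : ℝ} (hC : Jul ψ x x C) : BRFP (Psi τ ψ) (K τ x) := by
  have hτ0 := tau_ne hτ
  have hI := I_ne_zero
  have hx := real_ne x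
  obtain ⟨hC0, -, -⟩ := hBD ψ x x C hU.2.1 hC
  set H : ℂ → ℂ := fun u => -1 / (ψ (x + -1 / u) - x) with hH
  have hHp : ∀ u ∈ Hp, H u ∈ Hp := fun u hu =>
    neg_inv_Hp (sub_Hp (hU.2.1 (add_Hp (neg_inv_Hp hu) x)) x)
  have hHd : DifferentiableOn ℂ H Hp := by
    intro u hu
    have g1 : DifferentiableAt ℂ (fun u : ℂ => (x : ℂ) + -1 / u) u :=
      (differentiableAt_const _).add ((differentiableAt_const _).div differentiableAt_id
        (Hp_ne0 hu))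
    have hz := add_Hp (neg_inv_Hp hu) x
    have g2 : DifferentiableAt ℂ ψ ((x : ℂ) + -1 / u) :=
      hU.1.differentiableAt (Hp_open.mem_nhds hz)
    have g3 : DifferentiableAt ℂ (fun u : ℂ => ψ ((x : ℂ) + -1 / u)) u :=
      DifferentiableAt.comp u g2 g1
    exact ((differentiableAt_const _).div (g3.sub_const _)
      (Hp_ne0 (sub_Hp (hU.2.1 hz) x))).differentiableWithinAt
  obtain ⟨c, -, -, hclim⟩ := hJ H hHd (fun u hu => (hp_im (hHp u hu)).le)
  have hcge : 1 / C ≤ c := by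
    refine jwc_ge hclim fun u hu => ?_
    have hz := add_Hp (neg_inv_Hp hu) x
    have h1 := hC _ hz
    have hz' := neg_inv_Hp hu
    have e1 : (x : ℂ) + -1 / u - x = -1 / u := by ring
    have e2 : ((x : ℂ) + -1 / u).im = u.im / ‖u‖ ^ 2 := by
      rw [← neg_inv_im]
      simp
    have hu0 : 0 < ‖u‖ := norm_pos_iff.2 (Hp_ne0 hu)
    rw [e1, e2, norm_div, norm_neg, norm_one] at h1
    have hv := sub_Hp (hU.2.1 hz) x
    have hv0 : 0 < ‖ψ ((x : ℂ) + -1 / u) - x‖ := norm_pos_iff.2 (Hp_ne0 hv)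
    have e3 : (H u).im = (ψ ((x : ℂ) + -1 / u)).im / ‖ψ ((x : ℂ) + -1 / u) - x‖ ^ 2 := by
      rw [hH]
      simp only [neg_inv_im]
      simp
    rw [e3, div_mul_eq_mul_div, one_mul, div_le_iff₀ hC0, div_mul_eq_mul_div,
      le_div_iff₀ (by positivity)]
    have h2 : u.im / ‖u‖ ^ 2 * ‖ψ ((x : ℂ) + -1 / u) - x‖ ^ 2 * ‖u‖ ^ 2 ≤
        C * (ψ ((x : ℂ) + -1 / u)).im * (1 / ‖u‖) ^ 2 * ‖u‖ ^ 2 :=
      mul_le_mul_of_nonneg_right h1 (by positivity)
    have e4 : u.im / ‖u‖ ^ 2 * ‖ψ ((x : ℂ) + -1 / u) - x‖ ^ 2 * ‖u‖ ^ 2 =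
        u.im * ‖ψ ((x : ℂ) + -1 / u) - x‖ ^ 2 := by
      field_simp
    have e5 : C * (ψ ((x : ℂ) + -1 / u)).im * (1 / ‖u‖) ^ 2 * ‖u‖ ^ 2 =
        (ψ ((x : ℂ) + -1 / u)).im * C := by
      field_simp
    rw [e4, e5] at h2
    exact h2
  have hc0 : (c : ℂ) ≠ 0 := by
    have : 0 < c := lt_of_lt_of_le (by positivity) hcge
    norm_cast
    linarith
  -- the difference quotient in the half-plane
  have hq : ∀ M : ℝ, 1 < M → Tendsto (fun w => (ψ (K' τ w) - x) / (K' τ w - x))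
      (𝓝[Stolz (K τ x) M] (K τ x)) (𝓝 ((c : ℂ))⁻¹) := by
    intro M hM
    have h1 := ((hclim _).comp (tend_u hτ x (show 0 < M by linarith))).inv₀ hc0
    refine h1.congr' ?_
    filter_upwards [self_mem_nhdsWithin] with w hw
    have hz := K'_Hp hτ (stolz_ball hw)
    have n1 := Hp_ne0 (sub_Hp hz x)
    have n2 := Hp_ne0 (sub_Hp (hU.2.1 hz) x)
    have e1 : (x : ℂ) + -1 / (-1 / (K' τ w - x)) = K' τ w := by
      field_simp
      ring
    simp only [Function.comp_apply, hH]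
    rw [e1]
    field_simp
  have hlim : ∀ M : ℝ, 1 < M → Tendsto (fun w => ψ (K' τ w))
      (𝓝[Stolz (K τ x) M] (K τ x)) (𝓝 (x : ℂ)) := by
    intro M hM
    have h1 := ((K'_tend hτ x M).sub_const (x : ℂ)).mul (hq M hM)
    rw [sub_self, zero_mul] at h1
    have h2 := h1.add_const (x : ℂ)
    rw [zero_add] at h2
    refine h2.congr' ?_
    filter_upwards [self_mem_nhdsWithin] with w hw
    have hz := K'_Hp hτ (stolz_ball hw)
    have n1 := Hp_ne0 (sub_Hp hz x)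
    field_simp
    ring
  have key : AngLim (fun w => (Psi τ ψ w - K τ x) / (w - K τ x)) (K τ x) ((c : ℂ))⁻¹ := by
    intro M hM
    have h1 : Tendsto (fun w => (K' τ w + I) / (ψ (K' τ w) + I))
        (𝓝[Stolz (K τ x) M] (K τ x)) (𝓝 1) := by
      have := ((K'_tend hτ x M).add_const I).div ((hlim M hM).add_const I) hx
      rwa [div_self hx] at this
    have h2 := (hq M hM).mul h1
    rw [mul_one] at h2
    refine h2.congr' ?_
    filter_upwards [self_mem_nhdsWithin] with w hw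
    have hb := stolz_ball hw
    have hne := ball_ne hτ hb
    have hz := K'_Hp hτ hb
    have n1 := hp_ne hz
    have n2 := hp_ne (hU.2.1 hz)
    have n3 := Hp_ne0 (sub_Hp hz x)
    have hw' : w - K τ x = 2 * I * τ * (K' τ w - x) / ((K' τ w + I) * (x + I)) := by
      have := K_sub τ n1 hx
      rwa [K_K' hτ0 hne] at this
    unfold Psi
    rw [hw', K_sub τ n2 hx]
    field_simp
  refine ⟨((c : ℂ))⁻¹, ?_, key⟩
  intro M hM
  exact (K_diff τ hx).continuousAt.tendsto.comp (hlim M hM)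

theorem nofix (hSP : S_SP) {ψ : ℂ → ℂ} (hU : Uni ψ) (him : ∀ z ∈ Hp, z.im ≤ (ψ z).im)
    {z₀ : ℂ} (hz₀ : z₀ ∈ Hp) (h : ψ z₀ = z₀) : ∀ z ∈ Hp, ψ z = z := by
  intro z hz
  have h1 := hSP (fun z => ψ z - z) (hU.1.sub differentiableOn_id)
    (fun z hz => by
      show 0 ≤ (ψ z - z).im
      rw [Complex.sub_im]
      linarith [him z hz]) z hz z₀ hz₀
  simp only [h, sub_self, sub_zero, Complex.zero_im, mul_zero] at h1
  have h2 := hp_im hz
  have h3 := hp_im hz₀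
  have h4 : ‖ψ z - z‖ ^ 2 ≤ 0 := by
    by_contra hcon
    have : 0 < ‖ψ z - z‖ ^ 2 * z.im * z₀.im := mul_pos (mul_pos (not_le.1 hcon) h2) h3
    linarith
  have h5 : ‖ψ z - z‖ = 0 := by
    have : ‖ψ z - z‖ ^ 2 = 0 := le_antisymm h4 (sq_nonneg _)
    exact pow_eq_zero_iff (two_ne_zero) |>.1 this
  exact sub_eq_zero.1 (norm_eq_zero.1 h5)

end Pool.Agent.Y256.LW
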